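import Pool.Agent.W297.LP.Stm

/-!
Project LP, part DENS: clique densities from the Moon-Moser inequality.
-/

set_option autoImplicit false

open Finset

namespace Pool.Agent.W440.LP

open Pool.Agent.W297.LP

variable {V : Type} [Fintype V] {W : V → V → ℝ}

theorem cl_zero (D : Finset V) : (cl W D 0).card = 1 := by
  rw [Finset.card_eq_one]
  refine ⟨Fin.elim0, ?_⟩
  ext x
  simp only [cl, mem_filter, mem_univ, true_and, mem_singleton]
  constructor
  · intro _
    exact Subsingleton.elim _ _
  · intro _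
    exact ⟨fun i => i.elim0, fun i => i.elim0⟩

theorem cl_one (D : Finset V) : D.card ≤ (cl W D 1).card := by
  classical
  refine Finset.card_le_card_of_injOn (fun v => fun _ => v) ?_ ?_
  · intro v hv
    simp only [cl, coe_filter, mem_univ, true_and, Set.mem_ofPred_eq]
    refine ⟨fun _ => hv, fun i j h => absurd (Subsingleton.elim i j) h⟩
  · intro v _ w _ h
    exact congrFun h 0

theorem two_le (hW : Ker W) (D : Finset V) :
    ∑ x ∈ D, ∑ y ∈ D, W x y ≤ ((cl W D 2).card : ℝ) := by
  classical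
  have h1 : ∑ x ∈ D, ∑ y ∈ D, W x y =
      (((D ×ˢ D).filter (fun p => W p.1 p.2 = 1)).card : ℝ) := by
    rw [← Finset.sum_product', Finset.card_filter]
    push_cast
    refine Finset.sum_congr rfl fun p _ => ?_
    rcases hW.zo p.1 p.2 with h | h
    · rw [h]; simp
    · rw [h]; simp
  rw [h1]
  have h2 : ((D ×ˢ D).filter (fun p => W p.1 p.2 = 1)).card ≤ (cl W D 2).card := by
    refine Finset.card_le_card_of_injOn (fun p => ![p.1, p.2]) ?_ ?_
    · rintro ⟨a, b⟩ hp
      simp only [coe_filter, mem_product, Set.mem_ofPred_eq] at hp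
      simp only [cl, coe_filter, mem_univ, true_and, Set.mem_ofPred_eq, Fin.forall_fin_two]
      refine ⟨⟨hp.1.1, hp.1.2⟩, ⟨fun h => absurd rfl h, fun _ => hp.2⟩,
        ⟨fun _ => ?_, fun h => absurd rfl h⟩⟩
      rw [hW.symm]
      exact hp.2
    · rintro ⟨a, b⟩ _ ⟨a', b'⟩ _ h
      have h1 := congrFun h 0
      have h2 := congrFun h 1
      simp only [Matrix.cons_val_zero, Matrix.cons_val_one] at h1 h2
      rw [h1, h2]
  exact_mod_cast h2

theorem ratio (hmoon : SMoon) (hW : Ker W) {D : Finset V} (hD : 0 < D.card) {r : ℝ} (hr : 0 < r)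
    (h : (1 - 1 / r) * (D.card : ℝ) ^ 2 ≤ ∑ x ∈ D, ∑ y ∈ D, W x y) (j : ℕ) (hj : 1 ≤ j)
    (hjr : (j : ℝ) < r) : 0 < ((cl W D j).card : ℝ) ∧
      (1 - (j : ℝ) / r) * (D.card : ℝ) * ((cl W D j).card : ℝ) ≤ ((cl W D (j + 1)).card : ℝ) := by
  have hd : (0 : ℝ) < D.card := by exact_mod_cast hD
  induction j, hj using Nat.le_induction with
  | base =>
    have h1 : (D.card : ℝ) ≤ ((cl W D 1).card : ℝ) := by exact_mod_cast cl_one D
    have h1' : ((cl W D 1).card : ℝ) ≤ (D.card : ℝ) := by
      have : (cl W D 1).card ≤ D.card := by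
        classical
        refine Finset.card_le_card_of_injOn (fun x => x 0) ?_ ?_
        · intro x hx
          simp only [cl, coe_filter, mem_univ, true_and, Set.mem_ofPred_eq] at hx
          exact hx.1 0
        · intro x _ y _ h
          funext i
          rw [Subsingleton.elim i 0]
          exact h
      exact_mod_cast this
    have h2 : ((cl W D 1).card : ℝ) = (D.card : ℝ) := le_antisymm h1' h1
    refine ⟨by rw [h2]; exact hd, ?_⟩
    rw [h2]
    have h3 := two_le hW D
    calc (1 - ((1 : ℕ) : ℝ) / r) * (D.card : ℝ) * (D.card : ℝ) = (1 - 1 / r) * (D.card : ℝ) ^ 2 := by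
          push_cast; ring
      _ ≤ _ := h.trans h3
  | succ j hj ih =>
    have hjr' : (j : ℝ) < r := by
      push_cast at hjr
      linarith
    obtain ⟨h1, h2⟩ := ih hjr'
    have hj0 : (0 : ℝ) < j := by exact_mod_cast hj
    have h3 : 0 < 1 - (j : ℝ) / r := by
      rw [sub_pos, div_lt_one hr]
      exact hjr'
    have h4 : 0 < ((cl W D (j + 1)).card : ℝ) := lt_of_lt_of_le (by positivity) h2
    refine ⟨h4, ?_⟩
    have h5 := hmoon V W hW D j
    set a : ℝ := ((cl W D j).card : ℝ) with ha
    set b : ℝ := ((cl W D (j + 1)).card : ℝ) with hb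
    set c : ℝ := ((cl W D (j + 1 + 1)).card : ℝ) with hc
    -- j a c ≥ j a ((1 - (j+1)/r) d b)
    have h6 : b * (((j : ℝ) + 1) * ((1 - (j : ℝ) / r) * (D.card : ℝ) * a)) ≤
        b * (((j : ℝ) + 1) * b) := by
      gcongr
    have h7 : (j : ℝ) * a * ((1 - ((j : ℝ) + 1) / r) * (D.card : ℝ) * b) ≤ (j : ℝ) * a * c := by
      have h8 : (j : ℝ) * a * ((1 - ((j : ℝ) + 1) / r) * (D.card : ℝ) * b) =
          b * (((j : ℝ) + 1) * ((1 - (j : ℝ) / r) * (D.card : ℝ) * a)) - a * (D.card : ℝ) * b := by
        field_simp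
        ring
      rw [h8]
      nlinarith [h5, h6]
    have h9 := le_of_mul_le_mul_left h7 (by positivity)
    push_cast
    exact h9

theorem dens : SMoon → SDens := by
  intro hmoon V _ W hW D r hr h s hs
  rcases Nat.eq_zero_or_pos D.card with hD | hD
  · rcases Nat.eq_zero_or_pos s with rfl | hs0
    · rw [cl_zero]
      simp
    · rw [hD, Nat.cast_zero, zero_pow (by omega), mul_zero]
      exact Nat.cast_nonneg _
  · induction s with
    | zero =>
      rw [cl_zero]
      simp
    | succ j ih =>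
      have hjr : (j : ℝ) ≤ r := by
        push_cast at hs
        linarith
      rcases Nat.eq_zero_or_pos j with rfl | hj
      · have h1 : (D.card : ℝ) ≤ ((cl W D 1).card : ℝ) := by exact_mod_cast cl_one D
        simpa using h1
      · have ih' := ih (by linarith)
        rw [Finset.prod_range_succ]
        rcases hjr.eq_or_lt with hjr | hjr
        · have : (1 : ℝ) - (j : ℝ) / r = 0 := by
            rw [hjr, div_self hr.ne', sub_self]
          rw [this, mul_zero, zero_mul]
          exact Nat.cast_nonneg _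
        · obtain ⟨h1, h2⟩ := ratio hmoon hW hD hr h j hj hjr
          have h3 : 0 ≤ 1 - (j : ℝ) / r := by
            rw [sub_nonneg, div_le_one hr]
            exact hjr.le
          calc (∏ i ∈ range j, (1 - (i : ℝ) / r)) * (1 - (j : ℝ) / r) * (D.card : ℝ) ^ (j + 1)
              = (1 - (j : ℝ) / r) * (D.card : ℝ) *
                ((∏ i ∈ range j, (1 - (i : ℝ) / r)) * (D.card : ℝ) ^ j) := by ring
            _ ≤ (1 - (j : ℝ) / r) * (D.card : ℝ) * ((cl W D j).card : ℝ) := by gcongr
            _ ≤ _ := h2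

end Pool.Agent.W440.LP
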